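import Pool.Agent.H33.D3.Clo

/-!
Hall closure for blocks (helper53): `S : Fin M → Finset (Fin m)` gives the blocks of a constraint, `U` is the set of the
heavy blocks. `H33D3.Sup S s U` is the largest minimiser of `|vs S J \ U| - |J|` over `|J| ≤ 2 s`.
`(C1)` is `H33D3.sup_sub`, `(C2)` is `H33D3.sup_card`, `(C3)` is `H33D3.hall`, `(C4)` is `H33D3.mem_sup_self`.
-/

set_option autoImplicit false
open scoped Classical

namespace H53DP

open H33D3

variable {m M E s : ℕ} {S : Fin M → Finset (Fin m)}

/-- The closure is monotone. -/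
theorem sup_mono (hS : HX S E s) {U U' : Finset (Fin m)} (hU : U.card ≤ E) (h : U' ⊆ U) :
    Sup S s U' ⊆ Sup S s U :=
  sup_sub hS hU ((Finset.card_le_card h).trans hU) (h.trans Finset.subset_union_left)

/-- `(K3)`: the closure is empty iff all nonempty sets of constraints have many blocks outside `U`. -/
theorem sup_empty_iff (hS : HX S E s) {U : Finset (Fin m)} (hU : U.card ≤ E) :
    Sup S s U = ∅ ↔ ∀ J : Finset (Fin M), J.Nonempty → J.card ≤ 2 * s → J.card < (vs S J \ U).card := by
  constructor
  · intro h J hJ hc
    have h1 := sup_strict hS hU (J := J) hc (by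
      rw [h]
      intro h2
      obtain ⟨j, hj⟩ := hJ
      exact absurd (h2 hj) (Finset.notMem_empty j))
    rw [h, ph_empty] at h1
    unfold ph at h1
    omega
  · intro h
    by_contra hne
    have h1 : (Sup S s U).Nonempty := Finset.nonempty_iff_ne_empty.2 hne
    have h2 := sup_card hS hU
    have h3 := h _ h1 (by omega)
    have h4 := (sup_min hS hU).2 ∅ (by simp)
    rw [ph_empty] at h4
    unfold ph at h4
    omega

/-- Only small sets matter for `(K3)`. -/
theorem sup_empty_of (hS : HX S E s) {U : Finset (Fin m)} (hU : U.card ≤ E)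
    (h : ∀ J : Finset (Fin M), J.Nonempty → J.card ≤ s → J.card < (vs S J \ U).card) : Sup S s U = ∅ := by
  rw [sup_empty_iff hS hU]
  intro J hJ hc
  by_cases hc' : J.card ≤ s
  · exact h J hJ hc'
  · push Not at hc'
    have h1 := hS J hc' hc
    have h2 : (vs S J).card ≤ (vs S J \ U).card + U.card := by
      have := Finset.le_card_sdiff U (vs S J)
      omega
    omega

end H53DP
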